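import Pool.Agent.IT.Final

/-!
# A uniformly random unimodular triangulation of the square grid is irregular

Statement with the usual notion of triangulation (triangles meet in common faces).
-/

namespace Pool.Agent.Results.MP_da73da_co.IrregularLimit

open Filter Topology Pool.Agent.IT

/-- The points of `P_{m,n}`. -/
def Grid (m n : ℕ) : Set (ℤ × ℤ) := {p | 0 ≤ p.1 ∧ p.1 ≤ m ∧ 0 ≤ p.2 ∧ p.2 ≤ n}

/-- The convex hull in the plane of a set of lattice points. -/
def Hull (t : Set (ℤ × ℤ)) : Set (ℝ × ℝ) :=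
  convexHull ℝ ((fun p : ℤ × ℤ => ((p.1 : ℝ), (p.2 : ℝ))) '' t)

/-- Twice the signed area of the triangle `a b c`. -/
def area2 (a b c : ℤ × ℤ) : ℤ := (b.1 - a.1) * (c.2 - a.2) - (b.2 - a.2) * (c.1 - a.1)

/-- `T` (given by the vertex sets of its triangles) is a unimodular triangulation of `P_{m,n}`. -/
structure IsUnimodularTriangulation (m n : ℕ) (T : Finset (Finset (ℤ × ℤ))) : Prop where
  /-- triangles of area `1/2` with vertices in `P_{m,n}` -/
  triangle : ∀ t ∈ T, ∃ a b c : ℤ × ℤ, t = {a, b, c} ∧ (t : Set (ℤ × ℤ)) ⊆ Grid m n ∧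
    |area2 a b c| = 1
  /-- two triangles meet exactly in the convex hull of their common vertices -/
  face_to_face : ∀ t ∈ T, ∀ s ∈ T, Hull t ∩ Hull s = Hull (t ∩ s)
  /-- the triangles cover the rectangle -/
  cover : (⋃ t ∈ T, Hull t) = Hull (Grid m n)

/-- There is a height function on `P_{m,n}` such that over every triangle the lifted points outside
the triangle lie strictly above the plane through the three lifted vertices. -/
def IsRegular (m n : ℕ) (T : Finset (Finset (ℤ × ℤ))) : Prop :=
  ∃ h : Grid m n → ℝ, ∀ t ∈ T, ∃ α β γ : ℝ, ∀ p : Grid m n,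
    (p.1 ∈ t → h p = α * (p.1.1 : ℝ) + β * (p.1.2 : ℝ) + γ) ∧
    (p.1 ∉ t → α * (p.1.1 : ℝ) + β * (p.1.2 : ℝ) + γ < h p)

/-- The number `f(m,n)` of unimodular triangulations of `P_{m,n}`. -/
noncomputable def f (m n : ℕ) : ℕ := Set.ncard {T | IsUnimodularTriangulation m n T}

/-- The number of regular unimodular triangulations of `P_{m,n}`. -/
noncomputable def freg (m n : ℕ) : ℕ :=
  Set.ncard {T | IsUnimodularTriangulation m n T ∧ IsRegular m n T}

/-! ### The rectangle -/

theorem hull_grid (n : ℕ) : Hull (Grid n n) = Set.Icc ((0 : ℝ), (0 : ℝ)) ((n : ℝ), (n : ℝ)) := by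
  apply Set.Subset.antisymm
  · apply convexHull_min
    · rintro _ ⟨p, ⟨h1, h2, h3, h4⟩, rfl⟩
      rw [Set.mem_Icc, Prod.le_def, Prod.le_def]
      refine ⟨⟨?_, ?_⟩, ?_, ?_⟩
      · change (0 : ℝ) ≤ (p.1 : ℝ)
        exact_mod_cast h1
      · change (0 : ℝ) ≤ (p.2 : ℝ)
        exact_mod_cast h3
      · change (p.1 : ℝ) ≤ (n : ℝ)
        exact_mod_cast h2
      · change (p.2 : ℝ) ≤ (n : ℝ)
        exact_mod_cast h4
    · exact convex_Icc _ _
  · rintro ⟨x, y⟩ hxy
    rw [Set.mem_Icc, Prod.le_def, Prod.le_def] at hxy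
    obtain ⟨⟨h1, h3⟩, h2, h4⟩ := hxy
    simp only at h1 h2 h3 h4
    rcases Nat.eq_zero_or_pos n with rfl | hn
    · have hx : x = 0 := le_antisymm (by simpa using h2) h1
      have hy : y = 0 := le_antisymm (by simpa using h4) h3
      subst hx hy
      apply subset_convexHull
      exact ⟨(0, 0), ⟨le_rfl, by simp, le_rfl, by simp⟩, by simp⟩
    · have hn' : (0 : ℝ) < n := by exact_mod_cast hn
      have hmem : ∀ a b : ℤ, 0 ≤ a → a ≤ n → 0 ≤ b → b ≤ n →
          ((a : ℝ), (b : ℝ)) ∈ Hull (Grid n n) := by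
        intro a b ha1 ha2 hb1 hb2
        apply subset_convexHull
        exact ⟨(a, b), ⟨ha1, ha2, hb1, hb2⟩, rfl⟩
      have hconv : Convex ℝ (Hull (Grid n n)) := convex_convexHull ℝ _
      have c00 := hmem 0 0 le_rfl (by positivity) le_rfl (by positivity)
      have c10 := hmem n 0 (by positivity) le_rfl le_rfl (by positivity)
      have c01 := hmem 0 n le_rfl (by positivity) (by positivity) le_rfl
      have c11 := hmem n n (by positivity) le_rfl (by positivity) le_rfl
      have u0 : 0 ≤ x / n := by positivity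
      have u1 : x / n ≤ 1 := by rw [div_le_one hn']; exact h2
      have v0 : 0 ≤ y / n := by positivity
      have v1 : y / n ≤ 1 := by rw [div_le_one hn']; exact h4
      have e1 := hconv c00 c10 (a := 1 - x / n) (b := x / n) (by linarith) u0 (by ring)
      have e2 := hconv c01 c11 (a := 1 - x / n) (b := x / n) (by linarith) u0 (by ring)
      have e3 := hconv e1 e2 (a := 1 - y / n) (b := y / n) (by linarith) v0 (by ring)
      convert e3 using 1
      have hx : x / n * n = x := by field_simp
      have hy : y / n * n = y := by field_simp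
      ext
      · simp only [Prod.fst_add, Prod.smul_fst, smul_eq_mul]
        push_cast
        linear_combination (-1 : ℝ) * hx
      · simp only [Prod.snd_add, Prod.smul_snd, smul_eq_mul]
        push_cast
        linear_combination (-1 : ℝ) * hy

/-! ### Triangles with disjoint interiors meet in faces -/

variable {n : ℕ} {T : Finset (Finset (ℤ × ℤ))}

theorem edge_edge (hT : UT n T) {p q r a b c : Pt} (h : Pos T p q r) (g : Pos T a b c)
    {x : ℝ × ℝ} (a1 : dl p q x = 0) (a2 : 0 < dl q r x) (a3 : 0 < dl r p x)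
    (b1 : dl a b x = 0) (b2 : 0 < dl b c x) (b3 : 0 < dl c a x) :
    p ∈ ({a, b, c} : Finset Pt) ∧ q ∈ ({a, b, c} : Finset Pt) := by
  by_cases hk : crs (q.1 - p.1, q.2 - p.2) (b.1 - a.1, b.2 - a.2) = 0
  · set u : Pt := (q.1 - p.1, q.2 - p.2) with hu
    set v : Pt := (b.1 - a.1, b.2 - a.2) with hv
    set e : Pt := (r.1 - p.1, r.2 - p.2) with he
    have hue : crs u e = 1 := by
      rw [← h.2]
      simp only [crs, hu, he, det]
    have hve : crs v (c.1 - a.1, c.2 - a.2) = 1 := by
      rw [← g.2]
      simp only [crs, hv, det]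
    have hvk := eq_smul_of_crs hue hk
    set k : ℤ := crs v e with hkdef
    have hkk : k * crs u (c.1 - a.1, c.2 - a.2) = 1 := by
      rw [← hve, hvk]
      simp only [crs]
      ring
    have hv1 : b.1 - a.1 = k * (q.1 - p.1) := by
      have := congrArg Prod.fst hvk
      simpa [hv, hu] using this
    have hv2 : b.2 - a.2 = k * (q.2 - p.2) := by
      have := congrArg Prod.snd hvk
      simpa [hv, hu] using this
    have hkR : (k : ℝ) ≠ 0 := by
      have : k ≠ 0 := by
        rintro h0
        rw [h0] at hkk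
        simp at hkk
      exact_mod_cast this
    have hv1R : (b.1 : ℝ) - a.1 = k * ((q.1 : ℝ) - p.1) := by exact_mod_cast hv1
    have hv2R : (b.2 : ℝ) - a.2 = k * ((q.2 : ℝ) - p.2) := by exact_mod_cast hv2
    have hpqa : det p q a = 0 := by
      have h1 : (k : ℝ) * (det p q a : ℝ) = 0 := by
        have e1 : dl a b x = k * (dl p q x - (det p q a : ℝ)) := by
          simp only [dl, det]
          push_cast
          rw [hv1R, hv2R]
          ring
        rw [a1, b1] at e1
        linarith
      have h2 : (det p q a : ℝ) = 0 := by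
        rcases mul_eq_zero.mp h1 with h3 | h3
        · exact absurd h3 hkR
        · exact h3
      exact_mod_cast h2
    have hcra : crs u (a.1 - p.1, a.2 - p.2) = 0 := by
      rw [← hpqa]
      simp only [crs, hu, det]
    have ham := eq_smul_of_crs hue hcra
    set m : ℤ := crs (a.1 - p.1, a.2 - p.2) e with hm
    have ha1 : a.1 - p.1 = m * (q.1 - p.1) := by
      have := congrArg Prod.fst ham
      simpa [hu] using this
    have ha2 : a.2 - p.2 = m * (q.2 - p.2) := by
      have := congrArg Prod.snd ham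
      simpa [hu] using this
    have ha1R : (a.1 : ℝ) - p.1 = m * ((q.1 : ℝ) - p.1) := by exact_mod_cast ha1
    have ha2R : (a.2 : ℝ) - p.2 = m * ((q.2 : ℝ) - p.2) := by exact_mod_cast ha2
    have hsum1 : dl p q x + dl q r x + dl r p x = 1 := by rw [dl_sum, h.2]; norm_num
    have hsum2 : dl a b x + dl b c x + dl c a x = 1 := by rw [dl_sum, g.2]; norm_num
    have hdet : (det p q r : ℝ) = 1 := by exact_mod_cast h.2
    -- weights along the line
    have hx1 : x.1 = p.1 + dl r p x * ((q.1 : ℝ) - p.1) := by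
      have := bary1 h.2 x
      rw [a1] at this
      have h5 : dl q r x = 1 - dl r p x := by linarith
      rw [h5] at this
      linarith
    have hx2 : x.2 = p.2 + dl r p x * ((q.2 : ℝ) - p.2) := by
      have := bary2 h.2 x
      rw [a1] at this
      have h5 : dl q r x = 1 - dl r p x := by linarith
      rw [h5] at this
      linarith
    have hy1 : x.1 = a.1 + dl c a x * ((b.1 : ℝ) - a.1) := by
      have := bary1 g.2 x
      rw [b1] at this
      have h5 : dl b c x = 1 - dl c a x := by linarith
      rw [h5] at this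
      linarith
    have hy2 : x.2 = a.2 + dl c a x * ((b.2 : ℝ) - a.2) := by
      have := bary2 g.2 x
      rw [b1] at this
      have h5 : dl b c x = 1 - dl c a x := by linarith
      rw [h5] at this
      linarith
    have hkey : dl r p x = m + dl c a x * k := by
      have z1 : (dl r p x - m - dl c a x * k) * ((q.1 : ℝ) - p.1) = 0 := by
        rw [hv1R] at hy1
        linear_combination hy1 - hx1 + ha1R
      have z2 : (dl r p x - m - dl c a x * k) * ((q.2 : ℝ) - p.2) = 0 := by
        rw [hv2R] at hy2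
        linear_combination hy2 - hx2 + ha2R
      have z3 : (dl r p x - m - dl c a x * k) * (det p q r : ℝ) = 0 := by
        simp only [det]
        push_cast
        linear_combination ((r.2 : ℝ) - p.2) * z1 - ((r.1 : ℝ) - p.1) * z2
      rw [hdet] at z3
      linarith
    have hk1 : k = 1 ∨ k = -1 := Int.isUnit_iff.mp (IsUnit.of_mul_eq_one _ hkk)
    rcases hk1 with hk1 | hk1
    · have hm0 : m = 0 := by
        rw [hk1] at hkey
        push_cast at hkey
        have l1 : (m : ℝ) < 1 := by linarith
        have l2 : (-1 : ℝ) < m := by linarith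
        have l1' : m < 1 := by exact_mod_cast l1
        have l2' : -1 < m := by exact_mod_cast l2
        omega
      rw [hm0] at ha1 ha2
      rw [hk1] at hv1 hv2
      have e1 : a = p := by ext <;> [linarith; linarith]
      have e2 : b = q := by
        rw [e1] at hv1 hv2
        ext <;> [linarith; linarith]
      rw [e1, e2]
      simp
    · have hm0 : m = 1 := by
        rw [hk1] at hkey
        push_cast at hkey
        have l1 : (m : ℝ) < 2 := by linarith
        have l2 : (0 : ℝ) < m := by linarith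
        have l1' : m < 2 := by exact_mod_cast l1
        have l2' : 0 < m := by exact_mod_cast l2
        omega
      rw [hm0] at ha1 ha2
      rw [hk1] at hv1 hv2
      have e1 : a = q := by ext <;> [linarith; linarith]
      have e2 : b = p := by
        rw [e1] at hv1 hv2
        ext <;> [linarith; linarith]
      rw [e1, e2]
      simp
  · have := Pos.eq_of_cross hT h g a1 a2 a3 b1 b2 b3 hk
    rw [← this]
    simp

theorem edge_vertex {p q r a : Pt} (h : det p q r = 1)
    (a1 : dl p q (emb a) = 0) (a2 : 0 < dl q r (emb a)) (a3 : 0 < dl r p (emb a)) : False := by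
  rw [dl_emb] at a1 a2 a3
  have a1' : det p q a = 0 := by exact_mod_cast a1
  have a2' : 0 < det q r a := by exact_mod_cast a2
  have a3' : 0 < det r p a := by exact_mod_cast a3
  have hs : det p q a + det q r a + det r p a = 1 := by
    rw [← h]
    simp only [det]
    ring
  omega

theorem eq_emb_of {a b c : Pt} (h : det a b c = 1) {x : ℝ × ℝ} (h1 : dl a b x = 0)
    (h2 : dl c a x = 0) : x = emb a := by
  have hs : dl a b x + dl b c x + dl c a x = 1 := by rw [dl_sum, h]; norm_num
  have h3 : dl b c x = 1 := by linarith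
  have e1 := bary1 h x
  have e2 := bary2 h x
  rw [h1, h2, h3] at e1 e2
  ext
  · simp only [emb]; linarith
  · simp only [emb]; linarith

theorem edge_case (hT : UT n T) {p q r : Pt} (h : Pos T p q r) {s : Finset Pt} (hs : s ∈ T)
    {x : ℝ × ℝ} (hxs : x ∈ cell s) (a1 : dl p q x = 0) (a2 : 0 < dl q r x)
    (a3 : 0 < dl r p x) : p ∈ s ∧ q ∈ s := by
  obtain ⟨a, b, c, rfl, g⟩ := hT.exists_pos hs
  have hxs' := (mem_cell_iff g.2 x).mp hxs
  obtain ⟨b1, b2, b3⟩ := hxs'
  have r1 : ({b, c, a} : Finset Pt) = {a, b, c} := by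
    ext z; simp only [Finset.mem_insert, Finset.mem_singleton]; tauto
  have r2 : ({c, a, b} : Finset Pt) = {a, b, c} := by
    ext z; simp only [Finset.mem_insert, Finset.mem_singleton]; tauto
  rcases b1.eq_or_lt with b1 | b1 <;> rcases b2.eq_or_lt with b2 | b2 <;>
    rcases b3.eq_or_lt with b3 | b3
  · have hsum : dl a b x + dl b c x + dl c a x = 1 := by rw [dl_sum, g.2]; norm_num
    linarith
  · have e := eq_emb_of g.cyc.2 b2.symm b1.symm
    rw [e] at a1 a2 a3
    exact (edge_vertex h.2 a1 a2 a3).elim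
  · have e := eq_emb_of g.2 b1.symm b3.symm
    rw [e] at a1 a2 a3
    exact (edge_vertex h.2 a1 a2 a3).elim
  · exact edge_edge hT h g a1 a2 a3 b1.symm b2 b3
  · have e := eq_emb_of g.cyc'.2 b3.symm b2.symm
    rw [e] at a1 a2 a3
    exact (edge_vertex h.2 a1 a2 a3).elim
  · have := edge_edge hT h g.cyc a1 a2 a3 b2.symm b3 b1
    rwa [r1] at this
  · have := edge_edge hT h g.cyc' a1 a2 a3 b3.symm b1 b2
    rwa [r2] at this
  · have hin : x ∈ interior (cell {a, b, c}) := (mem_interior_cell_iff g.2 x).mpr ⟨b1, b2, b3⟩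
    have hxt : x ∈ cell {p, q, r} := (mem_cell_iff h.2 x).mpr ⟨a1.ge, a2.le, a3.le⟩
    have := hT.eq_of_mem_interior g.1 h.1 hin hxt
    rw [this]
    simp

theorem vertex_mem (hT : UT n T) {p : Pt} {s : Finset Pt} (hs : s ∈ T)
    (hxs : emb p ∈ cell s) : p ∈ s := by
  obtain ⟨a, b, c, rfl, g⟩ := hT.exists_pos hs
  obtain ⟨b1, b2, b3⟩ := (mem_cell_iff g.2 _).mp hxs
  rw [dl_emb] at b1 b2 b3
  have := Pos.mem_of_det g.2 (by exact_mod_cast b1) (by exact_mod_cast b2) (by exact_mod_cast b3)
  simpa using this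

/-- A vertex of a triangle with positive weight in `x` belongs to every triangle containing `x`. -/
theorem mem_of_weight (hT : UT n T) {p q r : Pt} (h : Pos T p q r) {s : Finset Pt} (hs : s ∈ T)
    {x : ℝ × ℝ} (hxt : x ∈ cell {p, q, r}) (hxs : x ∈ cell s) (hw : 0 < dl q r x) : p ∈ s := by
  obtain ⟨a1, -, a3⟩ := (mem_cell_iff h.2 x).mp hxt
  rcases a1.eq_or_lt with a1 | a1 <;> rcases a3.eq_or_lt with a3 | a3
  · have e := eq_emb_of h.2 a1.symm a3.symm
    rw [e] at hxs
    exact vertex_mem hT hs hxs
  · exact (edge_case hT h hs hxs a1.symm hw a3).1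
  · exact (edge_case hT h.cyc' hs hxs a3.symm a1 hw).2
  · have hin : x ∈ interior (cell {p, q, r}) := (mem_interior_cell_iff h.2 x).mpr ⟨a1, hw, a3⟩
    have := hT.eq_of_mem_interior h.1 hs hin hxs
    rw [← this]
    simp

theorem face_to_face_of (hT : UT n T) {t s : Finset Pt} (ht : t ∈ T) (hs : s ∈ T) :
    cell t ∩ cell s = cell (t ∩ s) := by
  apply Set.Subset.antisymm
  · rintro x ⟨hxt, hxs⟩
    obtain ⟨p, q, r, rfl, h⟩ := hT.exists_pos ht
    have hw := (mem_cell_iff h.2 x).mp hxt
    obtain ⟨a1, a2, a3⟩ := hw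
    have hsum : dl p q x + dl q r x + dl r p x = 1 := by rw [dl_sum, h.2]; norm_num
    have r1 : ({q, r, p} : Finset Pt) = {p, q, r} := by
      ext z; simp only [Finset.mem_insert, Finset.mem_singleton]; tauto
    have r2 : ({r, p, q} : Finset Pt) = {p, q, r} := by
      ext z; simp only [Finset.mem_insert, Finset.mem_singleton]; tauto
    have hp : 0 < dl q r x → emb p ∈ cell ({p, q, r} ∩ s) := fun hh =>
      emb_mem_cell (Finset.mem_inter.mpr ⟨by simp, mem_of_weight hT h hs hxt hxs hh⟩)
    have hq : 0 < dl r p x → emb q ∈ cell ({p, q, r} ∩ s) := fun hh =>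
      emb_mem_cell (Finset.mem_inter.mpr ⟨by simp, mem_of_weight hT h.cyc hs (by rwa [r1]) hxs hh⟩)
    have hr : 0 < dl p q x → emb r ∈ cell ({p, q, r} ∩ s) := fun hh =>
      emb_mem_cell (Finset.mem_inter.mpr ⟨by simp, mem_of_weight hT h.cyc' hs (by rwa [r2]) hxs hh⟩)
    -- some vertex is in the intersection
    obtain ⟨y, hy⟩ : ∃ y, y ∈ cell ({p, q, r} ∩ s) := by
      by_contra hcon
      push Not at hcon
      have c1 : dl q r x ≤ 0 := by
        by_contra h0
        exact hcon _ (hp (not_le.mp h0))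
      have c2 : dl r p x ≤ 0 := by
        by_contra h0
        exact hcon _ (hq (not_le.mp h0))
      have c3 : dl p q x ≤ 0 := by
        by_contra h0
        exact hcon _ (hr (not_le.mp h0))
      linarith
    have key : ∀ (w : ℝ) (v : Pt), 0 ≤ w → (0 < w → emb v ∈ cell ({p, q, r} ∩ s)) →
        ∃ z, z ∈ cell ({p, q, r} ∩ s) ∧ w • z = w • emb v := by
      intro w v hw hv
      rcases hw.eq_or_lt with h0 | h0
      · exact ⟨y, hy, by rw [← h0, zero_smul, zero_smul]⟩
      · exact ⟨emb v, hv h0, rfl⟩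
    obtain ⟨z1, hz1, e1⟩ := key _ p a2 hp
    obtain ⟨z2, hz2, e2⟩ := key _ q a3 hq
    obtain ⟨z3, hz3, e3⟩ := key _ r a1 hr
    have hx : x = dl q r x • emb p + dl r p x • emb q + dl p q x • emb r := by
      ext
      · simp only [emb, Prod.fst_add, Prod.smul_fst, smul_eq_mul]; exact bary1 h.2 x
      · simp only [emb, Prod.snd_add, Prod.smul_snd, smul_eq_mul]; exact bary2 h.2 x
    rw [hx, ← e1, ← e2, ← e3]
    have hconv : Convex ℝ (cell ({p, q, r} ∩ s)) := convex_convexHull ℝ _
    have := hconv.sum_mem (t := (Finset.univ : Finset (Fin 3)))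
      (w := ![dl q r x, dl r p x, dl p q x]) (z := ![z1, z2, z3])
      (by intro i _; fin_cases i <;> simp [a1, a2, a3])
      (by simp [Fin.sum_univ_three]; linarith)
      (by intro i _; fin_cases i <;> simp [hz1, hz2, hz3])
    simpa [Fin.sum_univ_three] using this
  · intro x hx
    refine ⟨?_, ?_⟩
    · refine convexHull_mono ?_ hx
      apply Set.image_mono
      exact_mod_cast Finset.inter_subset_left
    · refine convexHull_mono ?_ hx
      apply Set.image_mono
      exact_mod_cast Finset.inter_subset_right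

/-! ### Face to face implies disjoint interiors -/

theorem exists_pos_of {t : Finset Pt} (ht : ∃ a b c : ℤ × ℤ, t = {a, b, c} ∧ |area2 a b c| = 1) :
    ∃ p q r, t = {p, q, r} ∧ det p q r = 1 := by
  obtain ⟨a, b, c, rfl, h⟩ := ht
  rcases abs_eq (by norm_num : (0:ℤ) ≤ 1) |>.mp h with h | h
  · exact ⟨a, b, c, rfl, h⟩
  · have e : ({a, b, c} : Finset Pt) = {a, c, b} := by
      ext x; simp only [Finset.mem_insert, Finset.mem_singleton]; tauto
    refine ⟨a, c, b, e, ?_⟩
    rw [det_swap']
    simp only [det, area2] at *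
    omega

theorem card_of {t : Finset Pt} (ht : ∃ a b c : ℤ × ℤ, t = {a, b, c} ∧ |area2 a b c| = 1) :
    t.card = 3 := by
  obtain ⟨p, q, r, rfl, h⟩ := exists_pos_of ht
  have h1 : p ≠ q := by
    rintro rfl
    rw [det_self_left] at h
    omega
  have h2 : p ≠ r := by
    rintro rfl
    rw [det_self_out] at h
    omega
  have h3 : q ≠ r := by
    rintro rfl
    rw [det_self_right] at h
    omega
  exact Finset.card_eq_three.mpr ⟨p, q, r, h1, h2, h3, rfl⟩

theorem cell_pair_le {p q r : Pt} {s : Finset Pt} (hp : p ∉ s) {x : ℝ × ℝ}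
    (hx : x ∈ cell ({p, q, r} ∩ s)) : dl q r x ≤ 0 := by
  have key : cell ({p, q, r} ∩ s) ⊆ {x | 0 ≤ dl r q x} := by
    apply convexHull_min
    · rintro y ⟨z, hz, rfl⟩
      have hz' : z ∈ ({p, q, r} : Finset Pt) ∩ s := by exact_mod_cast hz
      rw [Finset.mem_inter] at hz'
      obtain ⟨hz1, hz2⟩ := hz'
      simp only [Finset.mem_insert, Finset.mem_singleton] at hz1
      change (0 : ℝ) ≤ dl r q (emb z)
      rw [dl_emb]
      rcases hz1 with rfl | rfl | rfl
      · exact absurd hz2 hp
      · rw [det_self_right]; norm_num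
      · rw [det_self_out]; norm_num
    · exact convex_halfplane r q
  have := key hx
  simp only [Set.mem_ofPred_eq] at this
  rw [dl_swap] at this
  linarith

theorem disjoint_of_face {t s : Finset Pt}
    (ht : ∃ a b c : ℤ × ℤ, t = {a, b, c} ∧ |area2 a b c| = 1)
    (hs : ∃ a b c : ℤ × ℤ, s = {a, b, c} ∧ |area2 a b c| = 1)
    (hf : cell t ∩ cell s = cell (t ∩ s)) (hne : t ≠ s) :
    Disjoint (interior (cell t)) (interior (cell s)) := by
  rw [Set.disjoint_left]
  intro x h1 h2
  have hx : x ∈ cell (t ∩ s) := by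
    rw [← hf]
    exact ⟨interior_subset h1, interior_subset h2⟩
  have ct := card_of ht
  have cs := card_of hs
  obtain ⟨p, q, r, rfl, h⟩ := exists_pos_of ht
  obtain ⟨g1, g2, g3⟩ := (mem_interior_cell_iff h x).mp h1
  have r1 : ({q, r, p} : Finset Pt) = {p, q, r} := by
    ext z; simp only [Finset.mem_insert, Finset.mem_singleton]; tauto
  have r2 : ({r, p, q} : Finset Pt) = {p, q, r} := by
    ext z; simp only [Finset.mem_insert, Finset.mem_singleton]; tauto
  have hp : p ∈ s := by
    by_contra hp
    have := cell_pair_le hp hx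
    linarith
  have hq : q ∈ s := by
    by_contra hq
    rw [← r1] at hx
    have := cell_pair_le hq hx
    linarith
  have hr : r ∈ s := by
    by_contra hr
    rw [← r2] at hx
    have := cell_pair_le hr hx
    linarith
  apply hne
  apply Finset.eq_of_subset_of_card_le
  · intro z hz
    simp only [Finset.mem_insert, Finset.mem_singleton] at hz
    rcases hz with rfl | rfl | rfl
    · exact hp
    · exact hq
    · exact hr
  · rw [ct, cs]

theorem tri_iff : IsUnimodularTriangulation n n T ↔ UT n T := by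
  constructor
  · intro h
    have ht : ∀ t ∈ T, ∃ a b c : ℤ × ℤ, t = {a, b, c} ∧ |area2 a b c| = 1 := by
      intro t ht
      obtain ⟨a, b, c, h1, -, h3⟩ := h.triangle t ht
      exact ⟨a, b, c, h1, h3⟩
    refine ⟨?_, ?_, ?_⟩
    · intro t ht
      obtain ⟨a, b, c, h1, h2, h3⟩ := h.triangle t ht
      exact ⟨a, b, c, h1, fun p hp => h2 (by exact_mod_cast hp), h3⟩
    · intro t ht1 s hs1 hne
      refine disjoint_of_face (ht t ht1) (ht s hs1) ?_ hne
      have := h.face_to_face t ht1 s hs1
      unfold cell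
      rw [Finset.coe_inter]
      exact this
    · rw [← hull_grid]
      exact h.cover
  · intro h
    refine ⟨?_, ?_, ?_⟩
    · intro t ht
      obtain ⟨a, b, c, h1, h2, h3⟩ := h.tri t ht
      exact ⟨a, b, c, h1, fun p hp => h2 p (by exact_mod_cast hp), h3⟩
    · intro t ht s hs
      have := face_to_face_of h ht hs
      unfold cell at this
      rw [Finset.coe_inter] at this
      exact this
    · rw [hull_grid]
      exact h.cover

theorem reg_iff (hT : IsUnimodularTriangulation n n T) : IsRegular n n T ↔ Reg n T := by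
  classical
  constructor
  · rintro ⟨h, hh⟩
    refine ⟨fun p => if hp : p ∈ Grid n n then h ⟨p, hp⟩ else 0, fun t ht => ?_⟩
    obtain ⟨α, β, γ, h1⟩ := hh t ht
    refine ⟨α, β, γ, ?_, ?_⟩
    · intro p hp
      obtain ⟨a, b, c, -, hsub, -⟩ := hT.triangle t ht
      have hpg : p ∈ Grid n n := hsub (by exact_mod_cast hp)
      beta_reduce
      rw [dif_pos hpg]
      exact (h1 ⟨p, hpg⟩).1 hp
    · intro p p1 p2 p3 p4 hp
      have hpg : p ∈ Grid n n := ⟨p1, p2, p3, p4⟩
      beta_reduce
      rw [dif_pos hpg]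
      exact (h1 ⟨p, hpg⟩).2 hp
  · rintro ⟨h, hh⟩
    refine ⟨fun p => h p.1, fun t ht => ?_⟩
    obtain ⟨α, β, γ, h1, h2⟩ := hh t ht
    refine ⟨α, β, γ, fun p => ⟨fun hp => h1 _ hp, fun hp => ?_⟩⟩
    obtain ⟨p1, p2, p3, p4⟩ := p.2
    exact h2 _ p1 p2 p3 p4 hp

/-- **Full positive answer to Q1.** There are finitely many unimodular triangulations of `P_{n,n}`,
at least one for all large `n`, and the proportion of the regular ones tends to zero. -/
theorem result :
    (∀ n : ℕ, {T | IsUnimodularTriangulation n n T}.Finite) ∧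
    (∀ᶠ n : ℕ in atTop, 0 < f n n) ∧
    Tendsto (fun n : ℕ => (freg n n : ℝ) / (f n n : ℝ)) atTop (𝓝 0) := by
  have e1 : ∀ n : ℕ, {T | IsUnimodularTriangulation n n T} = {T | UT n T} := by
    intro n
    ext T
    exact tri_iff
  have e2 : ∀ n : ℕ, {T | IsUnimodularTriangulation n n T ∧ IsRegular n n T} =
      {T | UT n T ∧ Reg n T} := by
    intro n
    ext T
    constructor
    · rintro ⟨h1, h2⟩
      exact ⟨tri_iff.mp h1, (reg_iff h1).mp h2⟩
    · rintro ⟨h1, h2⟩
      exact ⟨tri_iff.mpr h1, (reg_iff (tri_iff.mpr h1)).mpr h2⟩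
  refine ⟨?_, ?_, ?_⟩
  · intro n
    rw [e1]
    exact tri_finite n
  · obtain ⟨n0, h0⟩ := lower_bound 1 one_pos
    filter_upwards [eventually_ge_atTop n0] with n hn
    have h1 := h0 n hn
    unfold f
    rw [e1]
    by_contra hcon
    have h2 : ({T | UT n T} : Set (Finset (Finset Pt))).ncard = 0 := by omega
    rw [h2, Nat.cast_zero, mul_zero] at h1
    have h3 : (0 : ℝ) < (1000 / 489 : ℝ) ^ (2 * n ^ 2) := by positivity
    linarith
  · unfold f freg
    simp only [e1, e2]
    exact final

end Pool.Agent.Results.MP_da73da_co.IrregularLimit
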